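import Mathlib
import Pool.Agent.H.MP_bb83f1_co.Tab

set_option autoImplicit false

namespace Pool.Agent.Results.MP_bb83f1_co.No

/-- cops at `c`, robber at `r`, cops to move; `M` is the relation of allowed moves -/
inductive Win {V : Type} {k : ℕ} (M : V → V → Prop) : (Fin k → V) → V → Prop
  | start (c : Fin k → V) (r : V) (i : Fin k) (h : c i = r) : Win M c r
  | capture (c c' : Fin k → V) (r : V) (hc : ∀ i, M (c i) (c' i)) (i : Fin k) (h : c' i = r) :
      Win M c r
  | step (c c' : Fin k → V) (r : V) (hc : ∀ i, M (c i) (c' i))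
      (h : ∀ r', M r r' → Win M c' r') : Win M c r

/-- `k` cops have a winning strategy -/
def CopsWin {V : Type} (M : V → V → Prop) (k : ℕ) : Prop := ∃ c : Fin k → V, ∀ r, Win M c r

open Pool.Agent.H.MP_bb83f1_co in
theorem result : ∃ (n : ℕ) (G : SimpleGraph (Fin n)) (a b : ℕ), G.Connected ∧ ¬ G.Colorable 2 ∧
    IsLeast {k | CopsWin (fun u v => G.Adj u v ∨ u = v) k} a ∧
    IsLeast {k | CopsWin G.Adj k} b ∧ a < b := by
  have pas : ∀ (m : ℕ) (c r : Fin 31), ent tD 8 c r < m →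
      Win (fun u v => G.Adj u v ∨ u = v) ![0, c] r := by
    intro m
    induction m with
    | zero => intro c r h; omega
    | succ m ih =>
      intro c r h
      rcases c5 c r with h1 | h1 | h1 | h1 | ⟨x, -, h1, h2⟩
      · exact .start _ _ 0 h1.symm
      · exact .capture _ ![r, c] _ (Fin.forall_fin_two.mpr ⟨Or.inl h1, Or.inr rfl⟩) 0 rfl
      · exact .start _ _ 1 h1.symm
      · exact .capture _ ![0, r] _ (Fin.forall_fin_two.mpr ⟨Or.inr rfl, Or.inl h1⟩) 1 rfl
      · exact .step _ ![0, x] _ (Fin.forall_fin_two.mpr ⟨Or.inr rfl, Or.inl h1⟩)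
          fun z hz => ih x z (by have := h2 z hz; omega)
  have act : ∀ (k : ℕ) (hk : k ≤ 2) (c : Fin k → Fin 31) (r : Fin 31), Win G.Adj c r →
      ∀ f : Fin 2 → Fin 31, (∀ i, f (Fin.castLE hk i) = c i) →
        ¬ (ent tS 32 (f 0) (f 1)).testBit r = true := by
    intro k hk c r hw
    have ext : ∀ (c c' : Fin k → Fin 31) (f : Fin 2 → Fin 31), (∀ i, G.Adj (c i) (c' i)) →
        (∀ i, f (Fin.castLE hk i) = c i) →
        ∃ g : Fin 2 → Fin 31, (∀ i, g (Fin.castLE hk i) = c' i) ∧ ∀ j, G.Adj (f j) (g j) := by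
      intro c c' f hc hf
      choose nb hnb using c7
      refine ⟨fun j => if h : j.val < k then c' ⟨j, h⟩ else nb (f j), fun i => by simp, fun j => ?_⟩
      by_cases h : j.val < k
      · simp only [h, dite_true]
        have e : f j = c ⟨j, h⟩ := hf ⟨j, h⟩
        rw [e]
        exact hc _
      · simp only [h, dite_false]
        exact hnb _
    have two : ∀ (f : Fin 2 → Fin 31) (j : Fin 2), f j = f 0 ∨ f j = f 1 := fun f =>
      Fin.forall_fin_two.mpr ⟨Or.inl rfl, Or.inr rfl⟩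
    induction hw with
    | start c r i h =>
      intro f hf hs
      have h1 := c4 (f 0) (f 1)
      rw [← h, ← hf] at hs
      rcases two f (Fin.castLE hk i) with e | e <;> rw [e] at hs <;> simp [hs] at h1
    | capture c c' r hc i h =>
      intro f hf hs
      obtain ⟨g, hg, hfg⟩ := ext c c' f hc hf
      obtain ⟨h1, h2, -⟩ := safe_step _ _ r _ _ hs (hfg 0) (hfg 1)
      rw [← h, ← hg] at h1 h2
      exact (two g _).elim h1 h2
    | step c c' r hc _ ih =>
      intro f hf hs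
      obtain ⟨g, hg, hfg⟩ := ext c c' f hc hf
      obtain ⟨-, -, z, hz, h⟩ := safe_step _ _ r _ _ hs (hfg 0) (hfg 1)
      exact ih z hz g hg h
  have h2 : 2 ∈ {k | CopsWin (fun u v => G.Adj u v ∨ u = v) k} :=
    ⟨![0, 0], fun r => pas _ 0 r (Nat.lt_succ_self _)⟩
  have h31 : 31 ∈ {k | CopsWin G.Adj k} := ⟨id, fun r => .start _ _ r rfl⟩
  have hb := Nat.sInf_mem ⟨_, h31⟩
  refine ⟨31, G, sInf _, sInf _, conn, nonbip, ⟨Nat.sInf_mem ⟨_, h2⟩, fun _ h => Nat.sInf_le h⟩,
    ⟨hb, fun _ h => Nat.sInf_le h⟩, lt_of_le_of_lt (Nat.sInf_le h2) ?_⟩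
  by_contra hlt
  have hk := not_lt.mp hlt
  obtain ⟨c, hc⟩ := hb
  obtain ⟨f, hf⟩ : ∃ f : Fin 2 → Fin 31, ∀ i, f (Fin.castLE hk i) = c i :=
    ⟨fun j => if h : j.val < _ then c ⟨j, h⟩ else 0, fun i => by simp⟩
  obtain ⟨r, hr⟩ := c1 (f 0) (f 1)
  exact act _ hk c r (hc r) f hf hr

end Pool.Agent.Results.MP_bb83f1_co.No
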